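import Mathlib

/-!
MP_ca3412_nt, Q1: is N(k,A,B) at most 4 for all k >= 2 and all positive A, B ?

The answer is no.  For k = 2, A = 455, B = 489626271744 the equation x^2 + A k^n = B has
the five solutions
(x,n) = (699733,0), (699392,20), (698368,22), (606208,28), (32768,30).
-/

namespace Pool.Agent.Results.MP_ca3412_nt.FiveSolutions

/-- It is not true that `x ^ 2 + A * k ^ n = B` always has at most four solutions
`(x, n)` in non-negative integers (`k ≥ 2`, `A, B ≥ 1`). -/
theorem result :
    ¬ ∀ k A B : ℕ, 2 ≤ k → 1 ≤ A → 1 ≤ B →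
      {p : ℕ × ℕ | p.1 ^ 2 + A * k ^ p.2 = B}.encard ≤ 4 := by
  intro h
  have h1 := h 2 455 489626271744 (by norm_num) (by norm_num) (by norm_num)
  have hsub : (↑({(699733, 0), (699392, 20), (698368, 22), (606208, 28), (32768, 30)} :
      Finset (ℕ × ℕ)) : Set (ℕ × ℕ)) ⊆
      {p : ℕ × ℕ | p.1 ^ 2 + 455 * 2 ^ p.2 = 489626271744} := by
    intro p hp
    simp only [Finset.coe_insert, Finset.coe_singleton, Set.mem_insert_iff,
      Set.mem_singleton_iff] at hp
    rcases hp with rfl | rfl | rfl | rfl | rfl <;>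
      (show _ ^ 2 + 455 * 2 ^ _ = 489626271744) <;> norm_num
  have h2 := Set.encard_le_encard hsub
  rw [Set.encard_coe_eq_coe_finsetCard] at h2
  have hcard : ({(699733, 0), (699392, 20), (698368, 22), (606208, 28), (32768, 30)} :
      Finset (ℕ × ℕ)).card = 5 := by decide
  rw [hcard] at h2
  have h3 := h2.trans h1
  norm_num at h3

end Pool.Agent.Results.MP_ca3412_nt.FiveSolutions
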